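import Pool.Agent.FC640.LS.Var
import Pool.Agent.FC640.LS.Lin

/-! # Left-invariant metrics on `SU(3)` -/

set_option autoImplicit false
set_option maxHeartbeats 400000

open Real Set MeasureTheory Matrix
open scoped ContDiff Matrix.Norms.Frobenius

namespace Pool.Agent.FC640.LU

/-- Complex `3 × 3` matrices, with the Frobenius norm. -/
abbrev M3 : Type := Matrix (Fin 3) (Fin 3) ℂ

/-- The points of `SU(3)`. -/
def IsPt (g : M3) : Prop := star g * g = 1 ∧ g.det = 1

/-- The coordinates of an element of `su(3)` in the basis `i λ_a`, `λ_a` the Gell-Mann matrices;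
this basis is orthonormal for `-tr (X Y) / 2`. -/
noncomputable def vec (X : M3) : Fin 8 → ℝ :=
  ![(X 0 1).re, (X 0 1).im, (X 0 2).re, (X 0 2).im, (X 1 2).re, (X 1 2).im,
    ((X 0 0).im - (X 1 1).im) / 2, -(√3 / 2) * (X 2 2).im]

/-- The bilinear form on `su(3)` with matrix `B`. -/
noncomputable def form (B : Matrix (Fin 8) (Fin 8) ℝ) (v w : M3) : ℝ :=
  vec v ⬝ᵥ (B *ᵥ vec w)

/-- The left-invariant metric on `SU(3)` whose value at `1` has the matrix `B`. -/
noncomputable def metric (B : Matrix (Fin 8) (Fin 8) ℝ) (p v w : M3) : ℝ :=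
  form B (star p * v) (star p * w)

/-- The energy of a curve on `[a, b]`. -/
noncomputable def energy (B : Matrix (Fin 8) (Fin 8) ℝ) (γ : ℝ → M3) (a b : ℝ) : ℝ :=
  ∫ t in a..b, metric B (γ t) (deriv γ t) (deriv γ t)

/-- A geodesic: a smooth curve in `SU(3)`, critical for the energy on each `[a, b]` among all
smooth variations with fixed endpoints. -/
structure IsGeodesic (B : Matrix (Fin 8) (Fin 8) ℝ) (γ : ℝ → M3) : Prop where
  smooth : ContDiff ℝ ∞ γ
  mem : ∀ t, IsPt (γ t)
  critical : ∀ a b : ℝ, a < b → ∀ Γ : ℝ × ℝ → M3, ContDiff ℝ ∞ Γ → (∀ x, IsPt (Γ x)) →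
    (∀ t, Γ (0, t) = γ t) → (∀ s, Γ (s, a) = γ a) → (∀ s, Γ (s, b) = γ b) →
    HasDerivAt (fun s => energy B (fun t => Γ (s, t)) a b) 0 0

/-- The volume: `SU(3)` with `-tr (X Y) / 2` has volume `√3 π⁵`. -/
noncomputable def vol (B : Matrix (Fin 8) (Fin 8) ℝ) : ℝ := √3 * π ^ 5 * √B.det

/-! ### algebra -/

lemma vec_add (v w : M3) : vec (v + w) = vec v + vec w := by
  ext j; fin_cases j <;> simp [vec] <;> ring

lemma vec_smul (c : ℝ) (v : M3) : vec (c • v) = c • vec v := by
  ext j; fin_cases j <;> simp [vec] <;> ring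

/-- `vec` as a continuous linear map. -/
noncomputable def vecL : M3 →L[ℝ] (Fin 8 → ℝ) :=
  LinearMap.toContinuousLinearMap
    { toFun := vec, map_add' := vec_add, map_smul' := vec_smul }

lemma form_add_right (B : Matrix (Fin 8) (Fin 8) ℝ) (u v w : M3) :
    form B u (v + w) = form B u v + form B u w := by
  simp [form, vec_add, mulVec_add, dotProduct_add]

lemma form_smul_left (B : Matrix (Fin 8) (Fin 8) ℝ) (c : ℝ) (v w : M3) :
    form B (c • v) w = c * form B v w := by
  simp [form, vec_smul, smul_dotProduct]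

lemma form_smul_right (B : Matrix (Fin 8) (Fin 8) ℝ) (c : ℝ) (v w : M3) :
    form B v (c • w) = c * form B v w := by
  simp [form, vec_smul, mulVec_smul, dotProduct_smul]

lemma transpose_eq {n : Type*} [Fintype n] {B : Matrix n n ℝ} (hB : B.IsHermitian) : Bᵀ = B := by
  have := hB.eq
  rwa [conjTranspose_eq_transpose_of_trivial] at this

lemma form_comm {B : Matrix (Fin 8) (Fin 8) ℝ} (hB : B.IsHermitian) (v w : M3) :
    form B v w = form B w v := by
  unfold form
  rw [dotProduct_mulVec, ← mulVec_transpose, transpose_eq hB, dotProduct_comm]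

lemma hasDerivAt_vec {f : ℝ → M3} {f' : M3} {t : ℝ} (hf : HasDerivAt f f' t) (i : Fin 8) :
    HasDerivAt (fun s => vec (f s) i) (vec f' i) t := by
  have h : HasDerivAt (fun s => vecL (f s)) (vecL f') t := (vecL.hasFDerivAt).comp_hasDerivAt t hf
  exact (hasDerivAt_pi.1 h) i

lemma form_eq (B : Matrix (Fin 8) (Fin 8) ℝ) (v w : M3) :
    form B v w = ∑ i, ∑ j, vec v i * (B i j * vec w j) := by
  simp [form, dotProduct, mulVec, Finset.mul_sum]

lemma hasDerivAt_form {B : Matrix (Fin 8) (Fin 8) ℝ} (hB : B.IsHermitian)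
    {f : ℝ → M3} {f' : M3} {t : ℝ} (hf : HasDerivAt f f' t) :
    HasDerivAt (fun s => form B (f s) (f s)) (2 * form B (f t) f') t := by
  have h1 : HasDerivAt (fun s => ∑ i, ∑ j, vec (f s) i * (B i j * vec (f s) j))
      (∑ i, ∑ j, (vec f' i * (B i j * vec (f t) j) + vec (f t) i * (B i j * vec f' j))) t := by
    refine HasDerivAt.fun_sum fun i _ => HasDerivAt.fun_sum fun j _ => ?_
    exact (hasDerivAt_vec hf i).mul ((hasDerivAt_vec hf j).const_mul (B i j))
  have e : (∑ i, ∑ j, (vec f' i * (B i j * vec (f t) j) + vec (f t) i * (B i j * vec f' j)))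
      = 2 * form B (f t) f' := by
    simp only [Finset.sum_add_distrib]
    rw [← form_eq, ← form_eq, form_comm hB f' (f t)]
    ring
  rw [e] at h1
  refine h1.congr_of_eventuallyEq (Filter.Eventually.of_forall fun s => ?_)
  exact form_eq B _ _

lemma hasDerivAt_form_right (B : Matrix (Fin 8) (Fin 8) ℝ) (z : M3)
    {f : ℝ → M3} {f' : M3} {t : ℝ} (hf : HasDerivAt f f' t) :
    HasDerivAt (fun s => form B z (f s)) (form B z f') t := by
  have h1 : HasDerivAt (fun s => ∑ i, ∑ j, vec z i * (B i j * vec (f s) j))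
      (∑ i, ∑ j, vec z i * (B i j * vec f' j)) t := by
    refine HasDerivAt.fun_sum fun i _ => HasDerivAt.fun_sum fun j _ => ?_
    exact (((hasDerivAt_vec hf j).const_mul (B i j)).const_mul (vec z i))
  rw [← form_eq] at h1
  refine h1.congr_of_eventuallyEq (Filter.Eventually.of_forall fun s => ?_)
  exact form_eq B _ _

lemma continuous_vec : Continuous (vec : M3 → (Fin 8 → ℝ)) := vecL.continuous

lemma continuous_form (B : Matrix (Fin 8) (Fin 8) ℝ) {X : Type*}
    [TopologicalSpace X] {f g : X → M3} (hf : Continuous f) (hg : Continuous g) :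
    Continuous (fun x => form B (f x) (g x)) := by
  have h1 := continuous_pi_iff.1 (continuous_vec.comp hf)
  have h2 := continuous_pi_iff.1 (continuous_vec.comp hg)
  simp only [form_eq]
  refine continuous_finsetSum _ fun i _ => continuous_finsetSum _ fun j _ => ?_
  exact (h1 i).mul (continuous_const.mul (h2 j))

/-! ### the Lie algebra -/

/-- The element of `su(3)` with given coordinates. -/
noncomputable def mat (x : Fin 8 → ℝ) : M3 :=
  !![⟨0, x 6 + x 7 / √3⟩, ⟨x 0, x 1⟩, ⟨x 2, x 3⟩;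
     ⟨-x 0, x 1⟩, ⟨0, -x 6 + x 7 / √3⟩, ⟨x 4, x 5⟩;
     ⟨-x 2, x 3⟩, ⟨-x 4, x 5⟩, ⟨0, -2 * (x 7 / √3)⟩]

lemma star_mat (x : Fin 8 → ℝ) : star (mat x) = -mat x := by
  ext i j
  fin_cases i <;> fin_cases j <;> simp [mat, Matrix.star_apply, Complex.ext_iff]

lemma trace_mat (x : Fin 8 → ℝ) : (mat x).trace = 0 := by
  rw [Matrix.trace_fin_three]
  apply Complex.ext
  · simp [mat]
  · simp [mat]; ring

lemma sqrt_three_ne : (√3 : ℝ) ≠ 0 := by positivity

lemma vec_mat (x : Fin 8 → ℝ) : vec (mat x) = x := by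
  have h3 := sqrt_three_ne
  ext j
  fin_cases j <;> simp [vec, mat]
  field_simp

/-- The Frobenius norm as a trace. -/
lemma frob (X : M3) : ‖X‖ ^ 2 = ((star X * X).trace).re := by
  rw [frobenius_norm_def, ← Real.sqrt_eq_rpow, Real.sq_sqrt (by positivity)]
  simp only [Real.rpow_ofNat, Matrix.trace_fin_three, Matrix.mul_apply, Fin.sum_univ_three,
    Matrix.star_apply, Complex.add_re, Complex.mul_re, Complex.sq_norm, Complex.normSq_apply,
    RCLike.star_def, Complex.conj_re, Complex.conj_im]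
  ring

lemma re_diag {X : M3} (h : star X = -X) (i : Fin 3) : (X i i).re = 0 := by
  have h1 := congrArg Complex.re (congrFun (congrFun h i) i)
  simp [Matrix.star_apply] at h1
  linarith

lemma re_off {X : M3} (h : star X = -X) (i j : Fin 3) : (X j i).re = -(X i j).re := by
  have h1 := congrArg Complex.re (congrFun (congrFun h i) j)
  simp [Matrix.star_apply] at h1
  exact h1

lemma im_off {X : M3} (h : star X = -X) (i j : Fin 3) : (X j i).im = (X i j).im := by
  have h1 := congrArg Complex.im (congrFun (congrFun h i) j)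
  simp [Matrix.star_apply] at h1
  linarith

lemma im_trace {X : M3} (h : X.trace = 0) : (X 2 2).im = -(X 0 0).im - (X 1 1).im := by
  rw [Matrix.trace_fin_three] at h
  have h1 := congrArg Complex.im h
  simp at h1
  linarith

/-- The inner product of coordinate vectors. -/
lemma vec_dot {X Y : M3} (hX : star X = -X) (hX0 : X.trace = 0) (hY : star Y = -Y)
    (hY0 : Y.trace = 0) : vec X ⬝ᵥ vec Y = -(1 / 2) * ((X * Y).trace).re := by
  have h3 : (√3 : ℝ) * √3 = 3 := Real.mul_self_sqrt (by norm_num)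
  simp only [dotProduct, Fin.sum_univ_eight, vec, Matrix.trace_fin_three, Matrix.mul_apply,
    Fin.sum_univ_three, Complex.add_re, Complex.mul_re, Matrix.cons_val]
  rw [re_off hX 0 1, re_off hX 0 2, re_off hX 1 2, im_off hX 0 1, im_off hX 0 2, im_off hX 1 2,
    re_off hY 0 1, re_off hY 0 2, re_off hY 1 2, im_off hY 0 1, im_off hY 0 2, im_off hY 1 2,
    re_diag hX 0, re_diag hX 1, re_diag hX 2, im_trace hX0, im_trace hY0]
  linear_combination (1 / 4 * (-(X 0 0).im - (X 1 1).im) * (-(Y 0 0).im - (Y 1 1).im)) * h3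

lemma norm_sq_eq {X : M3} (hX : star X = -X) (hX0 : X.trace = 0) :
    ‖X‖ ^ 2 = 2 * (vec X ⬝ᵥ vec X) := by
  rw [frob, vec_dot hX hX0 hX hX0, hX]
  simp

lemma mat_vec {X : M3} (hX : star X = -X) (hX0 : X.trace = 0) : mat (vec X) = X := by
  have h3 : (√3 : ℝ) * √3 = 3 := Real.mul_self_sqrt (by norm_num)
  have h3' := sqrt_three_ne
  have e : -(√3 / 2) * (X 2 2).im / √3 = -(X 2 2).im / 2 := by field_simp
  ext i j
  apply Complex.ext
  · fin_cases i <;> fin_cases j <;>
      simp [mat, vec, re_diag hX, re_off hX 0 1, re_off hX 0 2, re_off hX 1 2]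
  · fin_cases i <;> fin_cases j <;>
      simp [mat, vec, im_off hX 0 1, im_off hX 0 2, im_off hX 1 2]
    · rw [← neg_mul, e, im_trace hX0]; ring
    · rw [← neg_mul, e, im_trace hX0]; ring
    · rw [← neg_mul (√3 / 2), e]; ring

end Pool.Agent.FC640.LU
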