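import Pool.Agent.FC640.LU.Torus

/-! # A lower bound for the diameter -/

set_option autoImplicit false
set_option maxHeartbeats 400000

open Real Set MeasureTheory Matrix
open scoped ContDiff Matrix.Norms.Frobenius

namespace Pool.Agent.FC640.LU

lemma hasDerivAt_det {f : ℝ → M3} {ξ : M3} {t : ℝ} (hf : HasDerivAt f (f t * ξ) t) :
    HasDerivAt (fun s => (f s).det) ((f t).det * ξ.trace) t := by
  have hd := fun i j => hasDerivAt_entry hf i j
  have h1 := (((((((hd 0 0).mul (hd 1 1)).mul (hd 2 2)).sub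
    (((hd 0 0).mul (hd 1 2)).mul (hd 2 1))).sub
    (((hd 0 1).mul (hd 1 0)).mul (hd 2 2))).add
    (((hd 0 1).mul (hd 1 2)).mul (hd 2 0))).add
    (((hd 0 2).mul (hd 1 0)).mul (hd 2 1))).sub
    (((hd 0 2).mul (hd 1 1)).mul (hd 2 0))
  simp only [Matrix.det_fin_three, Matrix.trace_fin_three]
  refine h1.congr_deriv ?_
  simp only [Matrix.mul_apply, Fin.sum_univ_three, Pi.mul_apply]
  ring

/-- The body velocity of a curve in `SU(3)` lies in `su(3)`. -/
lemma body {c : ℝ → M3} (hc : ∀ t, IsPt (c t)) {c' : M3} {t : ℝ} (h : HasDerivAt c c' t) :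
    star (star (c t) * c') = -(star (c t) * c') ∧ (star (c t) * c').trace = 0 ∧
      c' = c t * (star (c t) * c') := by
  have hcc := mul_star_self_of_isPt (hc t)
  have e : c' = c t * (star (c t) * c') := by rw [← mul_assoc, hcc, one_mul]
  refine ⟨?_, ?_, e⟩
  · have h1 : HasDerivAt (fun s => star (c s) * c s) (star c' * c t + star (c t) * c') t :=
      (h.star).mul h
    have h2 : (fun s => star (c s) * c s) = fun _ => (1 : M3) := funext fun s => (hc s).1
    rw [h2] at h1
    have h3 := h1.unique (hasDerivAt_const t (1 : M3))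
    rw [star_mul, star_star]
    exact eq_neg_of_add_eq_zero_left h3
  · rw [e] at h
    have h1 := hasDerivAt_det h
    have h2 : (fun s => (c s).det) = fun _ => (1 : ℂ) := funext fun s => (hc s).2
    rw [h2, (hc t).2] at h1
    have h3 := h1.unique (hasDerivAt_const t (1 : ℂ))
    simpa using h3

/-- The length of a curve, bounded below by the displacement of `Ad`. -/
lemma displacement {B : Matrix (Fin 8) (Fin 8) ℝ} {e : Fin 8 → ℝ} (he : e ⬝ᵥ e = 1)
    {μ : ℝ} (hμ : 0 < μ)
    (hB : ∀ x : Fin 8 → ℝ, μ * (x ⬝ᵥ x - (x ⬝ᵥ e) ^ 2) ≤ x ⬝ᵥ (B *ᵥ x))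
    {c : ℝ → M3} (hc : ContDiff ℝ 1 c) (hpt : ∀ t, IsPt (c t)) :
    ‖c 1 * mat e * star (c 1) - c 0 * mat e * star (c 0)‖ ≤
      4 / √μ * ∫ t in (0 : ℝ)..1, √(metric B (c t) (deriv c t) (deriv c t)) := by
  set E := mat e with hE
  have hEs : star E = -E := star_mat e
  have hEt : E.trace = 0 := trace_mat e
  have hEn : ‖E‖ ^ 2 = 2 := by rw [norm_sq_eq hEs hEt, hE, vec_mat, he]; norm_num
  have hd : ∀ t, HasDerivAt c (deriv c t) t := fun t =>
    (hc.differentiable one_ne_zero t).hasDerivAt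
  have hcd : Continuous (deriv c) := hc.continuous_deriv le_rfl
  have hcc : Continuous c := hc.continuous
  set h' : ℝ → M3 := fun t => deriv c t * E * star (c t) + c t * E * star (deriv c t) with hh'
  have hh : ∀ t, HasDerivAt (fun t => c t * E * star (c t)) (h' t) t := fun t =>
    (((hd t).mul_const E).mul ((hd t).star))
  have hh'c : Continuous h' :=
    ((hcd.mul continuous_const).mul hcc.star).add ((hcc.mul continuous_const).mul hcd.star)
  have hmc : Continuous (fun t => metric B (c t) (deriv c t) (deriv c t)) :=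
    continuous_form B (hcc.star.mul hcd) (hcc.star.mul hcd)
  have hint : (∫ t in (0 : ℝ)..1, h' t) = c 1 * E * star (c 1) - c 0 * E * star (c 0) :=
    intervalIntegral.integral_eq_sub_of_hasDerivAt (fun t _ => hh t)
      (hh'c.intervalIntegrable _ _)
  have hbound : ∀ t, ‖h' t‖ ≤ 4 / √μ * √(metric B (c t) (deriv c t) (deriv c t)) := by
    intro t
    obtain ⟨b1, b2, b3⟩ := body hpt (hd t)
    set ξ := star (c t) * deriv c t with hξ
    set x := vec ξ with hx
    set η := ξ - (x ⬝ᵥ e) • E with hη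
    have e1 : h' t = c t * (η * E - E * η) * star (c t) := by
      have e2 : deriv c t = c t * ξ := b3
      have e3 : star (deriv c t) = -ξ * star (c t) := by rw [e2, star_mul, b1]
      simp only [hh']
      rw [e3]
      nth_rewrite 1 [e2]
      have e4 : η * E - E * η = ξ * E - E * ξ := by
        rw [hη]
        simp only [sub_mul, mul_sub, smul_mul_assoc, mul_smul_comm]
        abel
      rw [e4]
      noncomm_ring
    have e5 : ‖h' t‖ = ‖η * E - E * η‖ := by
      have h1 := norm_conj (g := star (c t)) (by rw [star_star]; exact mul_star_self_of_isPt (hpt t))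
        (η * E - E * η)
      rw [star_star] at h1
      rw [e1, h1]
    have hηs : star η = -η := by
      rw [hη, star_sub, b1, star_smul_im hEs]; abel
    have hηt : η.trace = 0 := by rw [hη, Matrix.trace_sub, b2, Matrix.trace_smul, hEt]; simp
    have hηv : vec η = x - (x ⬝ᵥ e) • e := by
      rw [hη, sub_eq_add_neg, ← neg_smul, vec_add, vec_smul, hE, vec_mat]
      simp [sub_eq_add_neg, hx]
    have hηn : ‖η‖ ^ 2 = 2 * (x ⬝ᵥ x - (x ⬝ᵥ e) ^ 2) := by
      rw [norm_sq_eq hηs hηt, hηv]
      simp only [sub_dotProduct, dotProduct_sub, smul_dotProduct, dotProduct_smul, smul_eq_mul, he]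
      rw [dotProduct_comm e x]
      ring
    have h6 : ‖h' t‖ ≤ 2 * ‖η‖ * ‖E‖ := by
      rw [e5]
      calc ‖η * E - E * η‖ ≤ ‖η * E‖ + ‖E * η‖ := norm_sub_le _ _
        _ ≤ ‖η‖ * ‖E‖ + ‖E‖ * ‖η‖ := add_le_add (norm_mul_le _ _) (norm_mul_le _ _)
        _ = 2 * ‖η‖ * ‖E‖ := by ring
    have h7 : ‖h' t‖ ^ 2 ≤ (4 / √μ * √(metric B (c t) (deriv c t) (deriv c t))) ^ 2 := by
      have h8 := hB x
      have hm : metric B (c t) (deriv c t) (deriv c t) = x ⬝ᵥ (B *ᵥ x) := rfl
      have hnn : 0 ≤ x ⬝ᵥ (B *ᵥ x) := by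
        refine le_trans (mul_nonneg hμ.le ?_) h8
        have := sq_nonneg ‖η‖
        rw [hηn] at this
        linarith
      have h9 : (4 / √μ * √(metric B (c t) (deriv c t) (deriv c t))) ^ 2
          = 16 / μ * (x ⬝ᵥ (B *ᵥ x)) := by
        rw [mul_pow, div_pow, Real.sq_sqrt hμ.le, hm, Real.sq_sqrt hnn]; norm_num
      have h10 : (2 * ‖η‖ * ‖E‖) ^ 2 = 16 * (x ⬝ᵥ x - (x ⬝ᵥ e) ^ 2) := by
        rw [mul_pow, mul_pow, hηn, hEn]; ring
      calc ‖h' t‖ ^ 2 ≤ (2 * ‖η‖ * ‖E‖) ^ 2 := pow_le_pow_left₀ (norm_nonneg _) h6 2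
        _ = 16 * (x ⬝ᵥ x - (x ⬝ᵥ e) ^ 2) := h10
        _ = 16 / μ * (μ * (x ⬝ᵥ x - (x ⬝ᵥ e) ^ 2)) := by field_simp
        _ ≤ 16 / μ * (x ⬝ᵥ (B *ᵥ x)) := mul_le_mul_of_nonneg_left h8 (by positivity)
        _ = _ := h9.symm
    exact le_of_sq_le_sq h7 (by positivity)
  rw [← hint]
  calc ‖∫ t in (0 : ℝ)..1, h' t‖ ≤ ∫ t in (0 : ℝ)..1, ‖h' t‖ :=
        intervalIntegral.norm_integral_le_integral_norm zero_le_one
    _ ≤ ∫ t in (0 : ℝ)..1, 4 / √μ * √(metric B (c t) (deriv c t) (deriv c t)) := by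
        refine intervalIntegral.integral_mono_on zero_le_one
          (hh'c.norm.intervalIntegrable _ _)
          ((continuous_const.mul (Real.continuous_sqrt.comp hmc)).intervalIntegrable _ _)
          (fun t _ => hbound t)
    _ = _ := intervalIntegral.integral_const_mul _ _

/-! ### a finite group without invariant vectors -/

/-- Sign matrices. -/
def sgn : Fin 4 → M3 :=
  ![diagonal ![1, 1, 1], diagonal ![1, -1, -1], diagonal ![-1, 1, -1], diagonal ![-1, -1, 1]]

/-- Cyclic permutation matrices. -/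
def cyc : Fin 3 → M3 :=
  ![1, !![0, 0, 1; 1, 0, 0; 0, 1, 0], !![0, 1, 0; 0, 0, 1; 1, 0, 0]]

lemma sgn_pt (k : Fin 4) : star (sgn k) * sgn k = 1 ∧ (sgn k).det = 1 := by
  constructor
  · ext i j
    fin_cases k <;> fin_cases i <;> fin_cases j <;>
      simp [sgn, Matrix.mul_apply, Fin.sum_univ_three, Matrix.star_apply]
  · fin_cases k <;> simp [sgn, Fin.prod_univ_three]

lemma cyc_pt (k : Fin 3) : star (cyc k) * cyc k = 1 ∧ (cyc k).det = 1 := by
  constructor
  · ext i j
    fin_cases k <;> fin_cases i <;> fin_cases j <;>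
      simp [cyc, Matrix.mul_apply, Fin.sum_univ_three, Matrix.star_apply]
  · fin_cases k <;> simp [cyc, Matrix.det_fin_three]

lemma sum_sgn (E : M3) : ∑ k, sgn k * E * star (sgn k) = (4 : ℂ) • diagonal (fun i => E i i) := by
  ext i j
  rw [Matrix.sum_apply]
  fin_cases i <;> fin_cases j <;>
    simp [sgn, Fin.sum_univ_four, Matrix.mul_apply, Fin.sum_univ_three, Matrix.star_apply] <;> ring

lemma sum_cyc (v : Fin 3 → ℂ) :
    ∑ k, cyc k * diagonal v * star (cyc k) = (v 0 + v 1 + v 2) • (1 : M3) := by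
  ext i j
  rw [Matrix.sum_apply]
  fin_cases i <;> fin_cases j <;>
    simp [cyc, Matrix.mul_apply, Fin.sum_univ_three, Matrix.star_apply] <;> ring

lemma sum_all {E : M3} (h0 : E.trace = 0) :
    ∑ j, ∑ k, (cyc j * sgn k) * E * star (cyc j * sgn k) = 0 := by
  have h1 : ∀ j, ∑ k, (cyc j * sgn k) * E * star (cyc j * sgn k)
      = (4 : ℂ) • (cyc j * diagonal (fun i => E i i) * star (cyc j)) := by
    intro j
    have h2 : ∀ k, (cyc j * sgn k) * E * star (cyc j * sgn k)
        = cyc j * (sgn k * E * star (sgn k)) * star (cyc j) := by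
      intro k
      rw [star_mul]; noncomm_ring
    simp only [h2]
    rw [← Finset.sum_mul, ← Finset.mul_sum, sum_sgn, mul_smul_comm, smul_mul_assoc]
  simp only [h1]
  rw [← Finset.smul_sum, sum_cyc]
  rw [Matrix.trace_fin_three] at h0
  rw [h0]
  simp

/-- Some element of `SU(3)` moves `E` far away. -/
lemma exists_far {E : M3} (h0 : E.trace = 0) (hn : ‖E‖ ^ 2 = 2) :
    ∃ g : M3, IsPt g ∧ 2 ≤ ‖g * E * star g - E‖ := by
  by_contra hcon
  push Not at hcon
  have key : ∀ g : M3, IsPt g → 0 < ((star E * (g * E * star g)).trace).re := by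
    intro g hg
    have h1 := hcon g hg
    have hgs : g * star g = 1 := mul_star_self_of_isPt hg
    have h2 : ‖g * E * star g - E‖ ^ 2 < 4 := by
      have := norm_nonneg (g * E * star g - E)
      nlinarith
    have h3 : ‖g * E * star g‖ ^ 2 = 2 := by
      have h4 := norm_conj (g := star g) (by rw [star_star]; exact hgs) E
      rw [star_star] at h4
      rw [h4, hn]
    rw [frob] at h2 h3
    rw [frob] at hn
    set A := g * E * star g with hA
    have h5 : star (A - E) * (A - E) = star A * A - star A * E - star E * A + star E * E := by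
      rw [star_sub]; noncomm_ring
    have h6 : ((star A * E).trace).re = ((star E * A).trace).re := by
      have h7 : (star A * E) = (star E * A)ᴴ := by
        have : star (star E * A) = star A * E := by rw [star_mul, star_star]
        exact this.symm
      rw [h7, Matrix.trace_conjTranspose]
      simp
    rw [h5] at h2
    simp only [Matrix.trace_add, Matrix.trace_sub, Complex.add_re, Complex.sub_re] at h2
    rw [h3, hn, h6] at h2
    linarith
  have hsum : 0 < ∑ j : Fin 3, ∑ k : Fin 4,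
      ((star E * ((cyc j * sgn k) * E * star (cyc j * sgn k))).trace).re := by
    refine Finset.sum_pos (fun j _ => Finset.sum_pos (fun k _ => key _ ?_) ?_) ?_
    · refine ⟨?_, ?_⟩
      · rw [star_mul]
        calc star (sgn k) * star (cyc j) * (cyc j * sgn k)
            = star (sgn k) * (star (cyc j) * cyc j) * sgn k := by noncomm_ring
          _ = 1 := by rw [(cyc_pt j).1, mul_one, (sgn_pt k).1]
      · rw [Matrix.det_mul, (cyc_pt j).2, (sgn_pt k).2, mul_one]
    · exact Finset.univ_nonempty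
    · exact Finset.univ_nonempty
  have hzero : ∑ j : Fin 3, ∑ k : Fin 4,
      ((star E * ((cyc j * sgn k) * E * star (cyc j * sgn k))).trace).re = 0 := by
    have h1 : (star E * ∑ j, ∑ k, (cyc j * sgn k) * E * star (cyc j * sgn k)).trace.re = 0 := by
      rw [sum_all h0]; simp
    rw [Finset.mul_sum, Matrix.trace_sum, Complex.re_sum] at h1
    rw [← h1]
    refine Finset.sum_congr rfl fun j _ => ?_
    rw [Finset.mul_sum, Matrix.trace_sum, Complex.re_sum]
  linarith

end Pool.Agent.FC640.LU
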