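import Pool.Agent.FC640.LU.Defs

/-! # Periodic geodesics on `SU(3)` from closed one-parameter subgroups -/

set_option autoImplicit false
set_option maxHeartbeats 400000

open Real Set MeasureTheory Matrix
open scoped ContDiff Matrix.Norms.Frobenius

namespace Pool.Agent.FC640.LU

lemma mul_star_self_of_isPt {p : M3} (hp : IsPt p) : p * star p = 1 :=
  mul_eq_one_comm.1 hp.1

lemma star_smul_im {Z : M3} (hZ : star Z = -Z) (t : ℝ) : star (t • Z) = -(t • Z) := by
  have h : star (t • Z) = t • star Z := star_smul t Z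
  rw [h, hZ, smul_neg]

/-- The exponential map. -/
noncomputable def ex (Z : M3) : M3 := NormedSpace.exp Z

lemma hasDerivAt_ex (Z : M3) (t : ℝ) :
    HasDerivAt (fun t : ℝ => ex (t • Z)) (ex (t • Z) * Z) t :=
  hasDerivAt_exp_smul_const (𝕂 := ℝ) Z t

lemma contDiff_ex (Z : M3) : ContDiff ℝ ∞ (fun t : ℝ => ex (t • Z)) := by
  have h1 : ContDiff ℝ ∞ (NormedSpace.exp : M3 → M3) :=
    contDiff_iff_contDiffAt.2 fun x => (NormedSpace.exp_analytic (𝕂 := ℝ) x).contDiffAt
  exact h1.comp (contDiff_id.smul contDiff_const)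

lemma continuous_ex : Continuous ex := by
  have h1 : ContDiff ℝ ∞ (NormedSpace.exp : M3 → M3) :=
    contDiff_iff_contDiffAt.2 fun x => (NormedSpace.exp_analytic (𝕂 := ℝ) x).contDiffAt
  exact h1.continuous

lemma ex_zero : ex 0 = 1 := NormedSpace.exp_zero

lemma ex_add {X Y : M3} (h : Commute X Y) : ex (X + Y) = ex X * ex Y :=
  Matrix.exp_add_of_commute X Y h

lemma star_ex (X : M3) : star (ex X) = ex (star X) := NormedSpace.star_exp X

lemma star_ex_mul {Z : M3} (hZ : star Z = -Z) : star (ex Z) * ex Z = 1 := by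
  rw [star_ex, hZ, ← ex_add ((Commute.refl Z).neg_left), neg_add_cancel, ex_zero]

lemma hasDerivAt_entry {f : ℝ → M3} {f' : M3} {t : ℝ} (hf : HasDerivAt f f' t) (i j : Fin 3) :
    HasDerivAt (fun s => f s i j) (f' i j) t := by
  let L : M3 →L[ℝ] ℂ := LinearMap.toContinuousLinearMap
    { toFun := fun X => X i j, map_add' := fun _ _ => rfl, map_smul' := fun _ _ => rfl }
  exact (L.hasFDerivAt).comp_hasDerivAt t hf

lemma det_ex {Z : M3} (hZ : Z.trace = 0) : (ex Z).det = 1 := by
  have h : ∀ t : ℝ, HasDerivAt (fun t : ℝ => (ex (t • Z)).det) 0 t := by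
    intro t
    have hd := fun i j => hasDerivAt_entry (hasDerivAt_ex Z t) i j
    have h1 := (((((((hd 0 0).mul (hd 1 1)).mul (hd 2 2)).sub
      (((hd 0 0).mul (hd 1 2)).mul (hd 2 1))).sub
      (((hd 0 1).mul (hd 1 0)).mul (hd 2 2))).add
      (((hd 0 1).mul (hd 1 2)).mul (hd 2 0))).add
      (((hd 0 2).mul (hd 1 0)).mul (hd 2 1))).sub
      (((hd 0 2).mul (hd 1 1)).mul (hd 2 0))
    simp only [Matrix.det_fin_three]
    refine h1.congr_deriv ?_
    rw [Matrix.trace_fin_three] at hZ
    have hZ' : Z 2 2 = -Z 0 0 - Z 1 1 := by linear_combination hZ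
    simp only [Matrix.mul_apply, Fin.sum_univ_three, hZ', Pi.mul_apply]
    ring
  have h2 := is_const_of_deriv_eq_zero (fun t => (h t).differentiableAt) (fun t => (h t).deriv) 1 0
  simp only [one_smul, zero_smul] at h2
  rw [h2, ex_zero, Matrix.det_one]

lemma isPt_ex {Z : M3} (hZ : star Z = -Z) (h0 : Z.trace = 0) : IsPt (ex Z) :=
  ⟨star_ex_mul hZ, det_ex h0⟩

/-- If `B (Z, [Z, y]) = 0` for all `y`, then `t ↦ exp (t Z)` is a geodesic. -/
theorem isGeodesic_ex {B : Matrix (Fin 8) (Fin 8) ℝ} (hB : B.IsHermitian)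
    {Z : M3} (hZ : star Z = -Z) (h0 : Z.trace = 0)
    (hcrit : ∀ y : M3, star y = -y → form B Z (Z * y - y * Z) = 0) :
    IsGeodesic B (fun t => ex (t • Z)) := by
  have hpt : ∀ t : ℝ, IsPt (ex (t • Z)) := fun t => isPt_ex (star_smul_im hZ t) (by
    rw [Matrix.trace_smul, h0, smul_zero])
  refine ⟨contDiff_ex Z, hpt, fun a b _ Γ hΓ hp h0 ha hb => ?_⟩
  exact LS.first_variation (β := form B) (fun f f' t h => hasDerivAt_form hB h)
    (fun z f f' t h => hasDerivAt_form_right B z h)
    (continuous_form B continuous_fst continuous_snd) (form_add_right B) hZ hcrit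
    (fun t => ⟨(hpt t).1, mul_star_self_of_isPt (hpt t)⟩)
    (hasDerivAt_ex Z) hΓ (fun x => (hp x).1) h0 ha hb

/-- The integral elements of given norm. -/
def cls (r : ℝ) : Set M3 := {X | star X = -X ∧ X.trace = 0 ∧ ex ((2 * π) • X) = 1 ∧ ‖X‖ = r}

lemma isCompact_cls (r : ℝ) : IsCompact (cls r) := by
  refine Metric.isCompact_of_isClosed_isBounded ?_ ?_
  · have h1 : IsClosed {X : M3 | star X = -X} := isClosed_eq continuous_star continuous_neg
    have h2 : IsClosed {X : M3 | X.trace = 0} :=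
      isClosed_eq (continuous_id.matrix_trace) continuous_const
    have h3 : IsClosed {X : M3 | ex ((2 * π) • X) = 1} :=
      isClosed_eq (continuous_ex.comp (continuous_const_smul (2 * π))) continuous_const
    have h4 : IsClosed {X : M3 | ‖X‖ = r} := isClosed_eq continuous_norm continuous_const
    exact h1.inter (h2.inter (h3.inter h4))
  · refine (Metric.isBounded_closedBall (x := (0 : M3)) (r := r)).subset ?_
    intro X hX
    rw [mem_closedBall_zero_iff]
    exact hX.2.2.2.le

lemma norm_conj {g : M3} (hg : star g * g = 1) (X : M3) : ‖star g * X * g‖ = ‖X‖ := by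
  have hg' : g * star g = 1 := mul_eq_one_comm.1 hg
  have h : ‖star g * X * g‖ ^ 2 = ‖X‖ ^ 2 := by
    rw [frob, frob]
    have e : star (star g * X * g) * (star g * X * g) = star g * (star X * X) * g := by
      simp only [star_mul, star_star]
      calc star g * (star X * g) * (star g * X * g)
          = star g * star X * (g * star g) * X * g := by noncomm_ring
        _ = star g * (star X * X) * g := by rw [hg']; noncomm_ring
    rw [e, Matrix.trace_mul_comm, ← mul_assoc, hg', one_mul]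
  exact (pow_left_inj₀ (norm_nonneg _) (norm_nonneg _) two_ne_zero).1 h

lemma ex_conj {g : M3} (hg : star g * g = 1) (X : M3) : ex (star g * X * g) = star g * ex X * g := by
  have hg' : g * star g = 1 := mul_eq_one_comm.1 hg
  have hu : IsUnit g := ⟨⟨g, star g, hg', hg⟩, rfl⟩
  have hi : g⁻¹ = star g := Matrix.inv_eq_right_inv hg'
  have h := Matrix.exp_conj' g X hu
  rw [hi] at h
  exact h

lemma conj_mem_cls {r : ℝ} {Z : M3} (hZ : Z ∈ cls r) {g : M3} (hg : star g * g = 1) :
    star g * Z * g ∈ cls r := by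
  have hg' : g * star g = 1 := mul_eq_one_comm.1 hg
  refine ⟨?_, ?_, ?_, ?_⟩
  · rw [star_mul, star_mul, star_star, hZ.1]
    simp [mul_assoc]
  · rw [Matrix.trace_mul_comm, ← mul_assoc, hg', one_mul, hZ.2.1]
  · have e : (2 * π) • (star g * Z * g) = star g * ((2 * π) • Z) * g := by
      rw [mul_smul_comm, smul_mul_assoc]
    rw [e, ex_conj hg, hZ.2.2.1, mul_one, hg]
  · rw [norm_conj hg, hZ.2.2.2]

/-- A minimum of the form on a class is critical. -/
theorem critical_of_min {B : Matrix (Fin 8) (Fin 8) ℝ} (hB : B.IsHermitian)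
    {r : ℝ} {Z : M3} (hZ : Z ∈ cls r) (hmin : ∀ X ∈ cls r, form B Z Z ≤ form B X X)
    (y : M3) (hy : star y = -y) : form B Z (Z * y - y * Z) = 0 := by
  set g : ℝ → M3 := fun s => ex (s • y) with hg
  have hgd : ∀ s, HasDerivAt g (g s * y) s := fun s => hasDerivAt_ex y s
  have hgp : ∀ s, star (g s) * g s = 1 := fun s => star_ex_mul (star_smul_im hy s)
  have hg0 : g 0 = 1 := by
    simp only [hg, zero_smul]
    exact ex_zero
  have hX : HasDerivAt (fun s => star (g s) * Z * g s)
      (star (g 0 * y) * Z * g 0 + star (g 0) * Z * (g 0 * y)) 0 :=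
    (((hgd 0).star).mul_const Z).mul (hgd 0)
  have e : star (g 0 * y) * Z * g 0 + star (g 0) * Z * (g 0 * y) = Z * y - y * Z := by
    rw [hg0]
    simp only [star_one, mul_one, one_mul, hy]
    rw [neg_mul]; abel
  rw [e] at hX
  have h1 := hasDerivAt_form hB hX
  have hmin' : IsLocalMin (fun s => form B (star (g s) * Z * g s) (star (g s) * Z * g s)) 0 := by
    refine Filter.Eventually.of_forall fun s => ?_
    have h2 : star (g 0) * Z * g 0 = Z := by rw [hg0]; simp
    simp only [h2]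
    exact hmin _ (conj_mem_cls hZ (hgp s))
  have h3 := hmin'.hasDerivAt_eq_zero h1
  have h2 : star (g 0) * Z * g 0 = Z := by rw [hg0]; simp
  simp only [h2] at h3
  linarith

lemma form_pos {B : Matrix (Fin 8) (Fin 8) ℝ} (hB : B.PosDef) {Z : M3}
    (hZ : star Z = -Z) (h0 : Z.trace = 0) (h : Z ≠ 0) : 0 < form B Z Z := by
  have h1 : vec Z ≠ 0 := by
    intro hv
    have h2 := norm_sq_eq hZ h0
    rw [hv] at h2
    simp at h2
    exact h h2
  have h2 := hB.dotProduct_mulVec_pos h1
  simpa [form] using h2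

theorem exists_geodesic {B : Matrix (Fin 8) (Fin 8) ℝ} (hB : B.PosDef)
    {X₀ : M3} (hs : star X₀ = -X₀) (ht : X₀.trace = 0) (he : ex ((2 * π) • X₀) = 1)
    (h0 : X₀ ≠ 0) :
    ∃ (γ : ℝ → M3) (T : ℝ), 0 < T ∧ IsGeodesic B γ ∧
      (∀ t, metric B (γ t) (deriv γ t) (deriv γ t) = 1) ∧ (∀ t, γ (t + T) = γ t) ∧
      T ^ 2 ≤ (2 * π) ^ 2 * form B X₀ X₀ := by
  have hH : B.IsHermitian := hB.isHermitian
  have hX₀ : X₀ ∈ cls ‖X₀‖ := ⟨hs, ht, he, rfl⟩
  obtain ⟨Z, hZ, hmin⟩ := (isCompact_cls ‖X₀‖).exists_isMinOn ⟨X₀, hX₀⟩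
    (f := fun X => form B X X) (continuous_form B continuous_id continuous_id).continuousOn
  have hmin' : ∀ X ∈ cls ‖X₀‖, form B Z Z ≤ form B X X := fun X hX => hmin hX
  have hZ0 : Z ≠ 0 := by
    intro h
    have h1 := hZ.2.2.2
    rw [h, norm_zero] at h1
    exact h0 (norm_eq_zero.1 h1.symm)
  have hq : 0 < form B Z Z := form_pos hB hZ.1 hZ.2.1 hZ0
  set q := form B Z Z with hqdef
  have hsq : 0 < √q := Real.sqrt_pos.2 hq
  have hcrit := critical_of_min hH hZ hmin'
  set Z' : M3 := (√q)⁻¹ • Z with hZ'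
  have hZ's : star Z' = -Z' := star_smul_im hZ.1 _
  have hZ't : Z'.trace = 0 := by rw [hZ', Matrix.trace_smul, hZ.2.1, smul_zero]
  have hcrit' : ∀ y : M3, star y = -y → form B Z' (Z' * y - y * Z') = 0 := by
    intro y hy
    have e : Z' * y - y * Z' = (√q)⁻¹ • (Z * y - y * Z) := by
      rw [hZ', smul_mul_assoc, mul_smul_comm, smul_sub]
    rw [e, form_smul_right, hZ', form_smul_left, hcrit y hy]
    simp
  have hT1 : ex ((2 * π * √q) • Z') = 1 := by
    have e : (2 * π * √q) • Z' = (2 * π) • Z := by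
      rw [hZ', smul_smul, mul_assoc, mul_inv_cancel₀ hsq.ne', mul_one]
    rw [e]
    exact hZ.2.2.1
  refine ⟨fun t => ex (t • Z'), 2 * π * √q, by positivity, isGeodesic_ex hH hZ's hZ't hcrit',
    fun t => ?_, fun t => ?_, ?_⟩
  · have hp : star (ex (t • Z')) * ex (t • Z') = 1 := star_ex_mul (star_smul_im hZ's t)
    have hder : deriv (fun t : ℝ => ex (t • Z')) t = ex (t • Z') * Z' := (hasDerivAt_ex Z' t).deriv
    show metric B (ex (t • Z')) (deriv (fun t : ℝ => ex (t • Z')) t)
      (deriv (fun t : ℝ => ex (t • Z')) t) = 1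
    rw [hder]
    unfold metric
    rw [← mul_assoc, hp, one_mul, hZ', form_smul_left, form_smul_right, ← hqdef]
    have h1 : √q * √q = q := Real.mul_self_sqrt hq.le
    field_simp
    rw [pow_two, h1]
  · have h3 : Commute (t • Z') ((2 * π * √q) • Z') :=
      ((Commute.refl Z').smul_left t).smul_right _
    show ex ((t + 2 * π * √q) • Z') = ex (t • Z')
    rw [add_smul, ex_add h3, hT1, mul_one]
  · have h1 : √q ^ 2 = q := Real.sq_sqrt hq.le
    rw [mul_pow, h1]
    exact mul_le_mul_of_nonneg_left (hmin' X₀ hX₀) (by positivity)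

end Pool.Agent.FC640.LU
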