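import Pool.Agent.FC640.LU.Diam

/-! # Short periodic geodesics of left-invariant metrics on `SU(3)` -/

set_option autoImplicit false
set_option maxHeartbeats 400000

open Real Set MeasureTheory Matrix
open scoped ContDiff Matrix.Norms.Frobenius

namespace Pool.Agent.FC640.LU

open Pool.Agent.FC640.LS (ev ev_self sum_sq_ev quad_ev)

lemma ev_ne {n : Type*} [Fintype n] [DecidableEq n] {B : Matrix n n ℝ} (hB : B.IsHermitian)
    {i j : n} (hij : i ≠ j) : ev hB i ⬝ᵥ ev hB j = 0 := by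
  have h : inner ℝ (hB.eigenvectorBasis i) (hB.eigenvectorBasis j) = 0 :=
    hB.eigenvectorBasis.orthonormal.2 hij
  rw [EuclideanSpace.inner_eq_star_dotProduct] at h
  rw [dotProduct_comm]
  simpa [ev] using h

theorem main {B : Matrix (Fin 8) (Fin 8) ℝ} (hB : B.PosDef) :
    ∃ (γ : ℝ → M3) (T : ℝ), 0 < T ∧ IsGeodesic B γ ∧
      (∀ t, metric B (γ t) (deriv γ t) (deriv γ t) = 1) ∧ (∀ t, γ (t + T) = γ t) ∧
      T ^ 8 ≤ 256 * π ^ 3 * vol B ∧
      ∃ g : M3, IsPt g ∧ ∀ c : ℝ → M3, ContDiff ℝ 1 c → (∀ t, IsPt (c t)) → c 0 = 1 → c 1 = g →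
        T ≤ 4 * π * ∫ t in (0 : ℝ)..1, √(metric B (c t) (deriv c t) (deriv c t)) := by
  have hH := hB.isHermitian
  let σ : Fin 8 ≃ Fin 8 := Tuple.sort hH.eigenvalues
  have hσ : Monotone (fun l => hH.eigenvalues (σ l)) := Tuple.monotone_sort hH.eigenvalues
  set μ : Fin 8 → ℝ := fun l => hH.eigenvalues (σ l) with hμ
  set f : Fin 8 → (Fin 8 → ℝ) := fun l => ev hH (σ l) with hf
  have hμpos : ∀ l, 0 < μ l := fun l => hB.eigenvalues_pos _
  have hdet : B.det = μ 0 * μ 1 * μ 2 * μ 3 * μ 4 * μ 5 * μ 6 * μ 7 := by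
    rw [hH.det_eq_prod_eigenvalues]
    simp only [RCLike.ofReal_real_eq_id, id]
    rw [← Equiv.prod_comp σ, Fin.prod_univ_eight]
  have hsum : ∀ x : Fin 8 → ℝ, ∑ l, (f l ⬝ᵥ x) ^ 2 = x ⬝ᵥ x := by
    intro x
    rw [← sum_sq_ev hH x]
    exact Equiv.sum_comp σ (fun i => (ev hH i ⬝ᵥ x) ^ 2)
  have hquad : ∀ x : Fin 8 → ℝ, x ⬝ᵥ (B *ᵥ x) = ∑ l, μ l * (f l ⬝ᵥ x) ^ 2 := by
    intro x
    rw [quad_ev hH x]
    exact (Equiv.sum_comp σ (fun i => hH.eigenvalues i * (ev hH i ⬝ᵥ x) ^ 2)).symm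
  have h00 : f 0 ⬝ᵥ f 0 = 1 := ev_self hH _
  have h11 : f 1 ⬝ᵥ f 1 = 1 := ev_self hH _
  have hne : ∀ {i j : Fin 8}, i ≠ j → f i ⬝ᵥ f j = 0 := fun h =>
    ev_ne hH (fun h' => h (σ.injective h'))
  -- upper bound
  have hup : ∀ x : Fin 8 → ℝ, x ⬝ᵥ (B *ᵥ x) ≤ μ 7 * (x ⬝ᵥ x) := by
    intro x
    rw [hquad, ← hsum, Finset.mul_sum]
    refine Finset.sum_le_sum fun l _ => mul_le_mul_of_nonneg_right (hσ ?_) (sq_nonneg _)
    exact Fin.le_last l
  -- lower bound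
  have hlow : ∀ x : Fin 8 → ℝ, μ 1 * (x ⬝ᵥ x - (x ⬝ᵥ f 0) ^ 2) ≤ x ⬝ᵥ (B *ᵥ x) := by
    intro x
    have h1 : x ⬝ᵥ x - (x ⬝ᵥ f 0) ^ 2 = ∑ l : Fin 7, (f l.succ ⬝ᵥ x) ^ 2 := by
      rw [← hsum, Fin.sum_univ_succ, dotProduct_comm x (f 0)]; ring
    have h0 : ∑ l : Fin 8, μ l * (f l ⬝ᵥ x) ^ 2
        = μ 0 * (f 0 ⬝ᵥ x) ^ 2 + ∑ l : Fin 7, μ l.succ * (f l.succ ⬝ᵥ x) ^ 2 :=
      Fin.sum_univ_succ _
    rw [h1, hquad, h0, Finset.mul_sum]
    have h2 : ∑ l : Fin 7, μ 1 * (f l.succ ⬝ᵥ x) ^ 2 ≤ ∑ l : Fin 7, μ l.succ * (f l.succ ⬝ᵥ x) ^ 2 := by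
      refine Finset.sum_le_sum fun l _ => mul_le_mul_of_nonneg_right (hσ ?_) (sq_nonneg _)
      rw [Fin.le_def]; simp
    have h3 : 0 ≤ μ 0 * (f 0 ⬝ᵥ x) ^ 2 := mul_nonneg (hμpos 0).le (sq_nonneg _)
    linarith
  -- the singular element
  obtain ⟨θ, hθ⟩ := exists_singular (f 0) (f 1)
  set x₁ : Fin 8 → ℝ := Real.cos θ • f 0 + Real.sin θ • f 1 with hx₁
  have hx₁n : x₁ ⬝ᵥ x₁ = 1 := by
    rw [hx₁]
    simp only [dotProduct_add, add_dotProduct, dotProduct_smul, smul_dotProduct, smul_eq_mul]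
    rw [h00, h11, hne (i := 0) (j := 1) (by decide), hne (i := 1) (j := 0) (by decide)]
    linear_combination Real.sin_sq_add_cos_sq θ
  have hf0 : ∀ l, f l ⬝ᵥ x₁ = if l = 0 then Real.cos θ else if l = 1 then Real.sin θ else 0 := by
    intro l
    rw [hx₁, dotProduct_add, dotProduct_smul, dotProduct_smul]
    by_cases h0 : l = 0
    · rw [if_pos h0, h0, h00, hne (i := 0) (j := 1) (by decide)]; simp
    · rw [if_neg h0]
      by_cases h1 : l = 1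
      · rw [if_pos h1, h1, h11, hne (i := 1) (j := 0) (by decide)]; simp
      · rw [if_neg h1, hne h0, hne h1]; simp
  have hx₁q : x₁ ⬝ᵥ (B *ᵥ x₁) ≤ μ 1 := by
    have h1 : x₁ ⬝ᵥ (B *ᵥ x₁) ≤ ∑ l, μ 1 * (f l ⬝ᵥ x₁) ^ 2 := by
      rw [hquad]
      refine Finset.sum_le_sum fun l _ => ?_
      rcases le_or_gt l 1 with h | h
      · exact mul_le_mul_of_nonneg_right (hσ h) (sq_nonneg _)
      · have h2 : f l ⬝ᵥ x₁ = 0 := by
          rw [hf0, if_neg (fun h' => by rw [h'] at h; exact absurd h (by decide)), if_neg h.ne']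
        rw [h2]; simp
    rw [← Finset.mul_sum, hsum, hx₁n, mul_one] at h1
    exact h1
  set X₁ := mat x₁ with hX₁
  have hX₁n : ‖X₁‖ ^ 2 = 2 := by
    rw [norm_sq_eq (star_mat _) (trace_mat _), vec_mat, hx₁n]; norm_num
  have hX₁0 : X₁ ≠ 0 := by
    intro h
    rw [h] at hX₁n
    norm_num at hX₁n
  have hX₁q : form B X₁ X₁ ≤ μ 1 := by
    unfold form
    rw [hX₁, vec_mat]; exact hx₁q
  -- the torus of the shortest element
  set E := mat (f 0) with hE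
  have hEs : star E = -E := star_mat _
  have hEt : E.trace = 0 := trace_mat _
  have hEn : ‖E‖ ^ 2 = 2 := by rw [norm_sq_eq hEs hEt, hE, vec_mat, h00]; norm_num
  have hEq : form B E E ≤ μ 0 := by
    unfold form
    rw [hE, vec_mat, hquad]
    have : ∀ l, μ l * (f l ⬝ᵥ f 0) ^ 2 = if l = 0 then μ 0 else 0 := by
      intro l
      by_cases h0 : l = 0
      · rw [if_pos h0, h0, h00]; simp
      · rw [if_neg h0, hne h0]; simp
    simp only [this]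
    simp
  obtain ⟨X₂, a1, a2, a3, a4, a5⟩ := torus_bound hB hEs hEt hEn hEq (L := μ 7) (by
    intro Y hY hY0 hYn
    have h1 := hup (vec Y)
    have h2 : vec Y ⬝ᵥ vec Y = 1 := by
      have := norm_sq_eq hY hY0
      rw [hYn] at this; linarith
    rw [h2, mul_one] at h1
    exact h1)
  -- the better of the two
  obtain ⟨X, b1, b2, b3, b4, b5, b6⟩ : ∃ X : M3, star X = -X ∧ X.trace = 0 ∧
      ex ((2 * π) • X) = 1 ∧ X ≠ 0 ∧ form B X X ≤ μ 1 ∧ form B X X ≤ √3 * √(μ 0 * μ 7) := by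
    rcases le_total (μ 1) (√3 * √(μ 0 * μ 7)) with h | h
    · exact ⟨X₁, star_mat _, trace_mat _, ex_singular (star_mat _) (trace_mat _) hθ hX₁n, hX₁0,
        hX₁q, hX₁q.trans h⟩
    · exact ⟨X₂, a1, a2, a3, a4, a5.trans h, a5⟩
  have hq0 : 0 < form B X X := form_pos hB b1 b2 b4
  set q := form B X X with hq
  obtain ⟨γ, T, c1, c2, c3, c4, c5⟩ := exists_geodesic hB b1 b2 b3 b4
  refine ⟨γ, T, c1, c2, c3, c4, ?_, ?_⟩
  · have hq2 : q ^ 2 ≤ 3 * (μ 0 * μ 7) := by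
      have h1 := pow_le_pow_left₀ hq0.le b6 2
      rwa [mul_pow, Real.sq_sqrt (by norm_num), Real.sq_sqrt (mul_pos (hμpos 0) (hμpos 7)).le] at h1
    have hmono : ∀ l : Fin 8, 1 ≤ l → q ≤ μ l := fun l hl => b5.trans (hσ hl)
    have hq6 : q ^ 6 ≤ μ 1 * μ 2 * μ 3 * μ 4 * μ 5 * μ 6 := by
      have e : q ^ 6 = q * q * q * q * q * q := by ring
      rw [e]
      have m1 := hmono 1 (by decide)
      have m2 := hmono 2 (by decide)
      have m3 := hmono 3 (by decide)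
      have m4 := hmono 4 (by decide)
      have m5 := hmono 5 (by decide)
      have m6 := hmono 6 (by decide)
      have p1 := hμpos 1
      have p2 := hμpos 2
      have p3 := hμpos 3
      have p4 := hμpos 4
      have p5 := hμpos 5
      gcongr
    have hq8 : q ^ 8 ≤ 3 * B.det := by
      have h1 : q ^ 8 = q ^ 2 * q ^ 6 := by ring
      rw [h1, hdet]
      calc q ^ 2 * q ^ 6 ≤ (3 * (μ 0 * μ 7)) * (μ 1 * μ 2 * μ 3 * μ 4 * μ 5 * μ 6) :=
            mul_le_mul hq2 hq6 (by positivity)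
              (mul_nonneg (by norm_num) (mul_pos (hμpos 0) (hμpos 7)).le)
        _ = 3 * (μ 0 * μ 1 * μ 2 * μ 3 * μ 4 * μ 5 * μ 6 * μ 7) := by ring
    have hBd : 0 < B.det := hB.det_pos
    have h6 : (T ^ 2) ^ 8 ≤ ((2 * π) ^ 2 * q) ^ 8 := pow_le_pow_left₀ (by positivity) c5 8
    have h3 : (√3 : ℝ) ^ 2 = 3 := Real.sq_sqrt (by norm_num)
    have h7 : ((2 * π) ^ 2 * q) ^ 8 ≤ (256 * π ^ 8 * (√3 * √B.det)) ^ 2 := by
      have e1 : (256 * π ^ 8 * (√3 * √B.det)) ^ 2 = 65536 * π ^ 16 * (3 * B.det) := by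
        rw [mul_pow, mul_pow √3, Real.sq_sqrt hBd.le, h3]; ring
      have e2 : ((2 * π) ^ 2 * q) ^ 8 = 65536 * π ^ 16 * q ^ 8 := by ring
      rw [e1, e2]
      exact mul_le_mul_of_nonneg_left hq8 (by positivity)
    have h8 : (T ^ 8) ^ 2 ≤ (256 * π ^ 8 * (√3 * √B.det)) ^ 2 := by
      calc (T ^ 8) ^ 2 = (T ^ 2) ^ 8 := by ring
        _ ≤ _ := h6.trans h7
    have h9 := le_of_sq_le_sq h8 (by positivity)
    calc T ^ 8 ≤ 256 * π ^ 8 * (√3 * √B.det) := h9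
      _ = 256 * π ^ 3 * vol B := by unfold vol; ring
  · obtain ⟨g, hg, hfar⟩ := exists_far hEt hEn
    refine ⟨g, hg, fun c hc hpt hc0 hc1 => ?_⟩
    have h1 := displacement h00 (hμpos 1) hlow hc hpt
    rw [hc0, hc1, star_one, mul_one, one_mul] at h1
    have h2 := hfar.trans h1
    set L := ∫ t in (0 : ℝ)..1, √(metric B (c t) (deriv c t) (deriv c t)) with hL
    have hs : 0 < √(μ 1) := Real.sqrt_pos.2 (hμpos 1)
    have h3 : √(μ 1) ≤ 2 * L := by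
      have h4 : 2 * √(μ 1) ≤ 4 * L := by
        have h5 : 4 / √(μ 1) * L = 4 * L / √(μ 1) := by ring
        rw [h5, le_div_iff₀ hs] at h2
        exact h2
      linarith
    have h4 : T ≤ 2 * π * √(μ 1) := by
      refine le_of_sq_le_sq (a := T) (b := 2 * π * √(μ 1)) ?_ (by positivity)
      rw [mul_pow, Real.sq_sqrt (hμpos 1).le]
      exact c5.trans (mul_le_mul_of_nonneg_left b5 (by positivity))
    calc T ≤ 2 * π * √(μ 1) := h4
      _ ≤ 2 * π * (2 * L) := mul_le_mul_of_nonneg_left h3 (by positivity)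
      _ = 4 * π * L := by ring

end Pool.Agent.FC640.LU
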