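import Pool.Agent.FC640.LU.Geo

/-! # Singular elements and maximal tori of `su(3)` -/

set_option autoImplicit false
set_option maxHeartbeats 400000

open Real Set MeasureTheory Matrix
open scoped ContDiff Matrix.Norms.Frobenius

namespace Pool.Agent.FC640.LU

lemma ex_neg_of_cube {X : M3} (hX : X * X * X = -X) : ex ((2 * π) • (-X)) = 1 := by
  set G : ℝ → M3 := fun t => 1 + Real.sin t • X + (1 - Real.cos t) • (X * X) with hG
  have hGd : ∀ t, HasDerivAt G (G t * X) t := by
    intro t
    have h1 : HasDerivAt G (0 + Real.cos t • X + (0 - -Real.sin t) • (X * X)) t := by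
      refine ((hasDerivAt_const t (1 : M3)).add ((Real.hasDerivAt_sin t).smul_const X)).add ?_
      exact (((hasDerivAt_const t (1 : ℝ)).sub (Real.hasDerivAt_cos t)).smul_const (X * X))
    refine h1.congr_deriv ?_
    have e : G t * X = X + Real.sin t • (X * X) + (1 - Real.cos t) • (X * X * X) := by
      simp only [hG, add_mul, one_mul, smul_mul_assoc]
    rw [e, hX]
    simp only [sub_smul, one_smul, smul_neg, zero_add, zero_sub, neg_neg]
    abel
  have hE : ∀ t : ℝ, HasDerivAt (fun t : ℝ => ex (t • (-X))) ((-X) * ex (t • (-X))) t := fun t =>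
    hasDerivAt_exp_smul_const' (𝕂 := ℝ) (-X) t
  have hH : ∀ t, HasDerivAt (fun t => G t * ex (t • (-X))) 0 t := by
    intro t
    have h := (hGd t).mul (hE t)
    refine h.congr_deriv ?_
    simp only [neg_mul, mul_neg, mul_assoc]
    abel
  have h2 := is_const_of_deriv_eq_zero (fun t => (hH t).differentiableAt)
    (fun t => (hH t).deriv) (2 * π) 0
  have h3 : G (2 * π) = 1 := by simp [hG]
  have h4 : G 0 = 1 := by simp [hG]
  rw [h3, h4, zero_smul, ex_zero, one_mul, one_mul] at h2
  exact h2

lemma ex_of_cube {X : M3} (hX : X * X * X = -X) : ex ((2 * π) • X) = 1 := by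
  have h := ex_neg_of_cube (X := -X) (by simp [hX])
  rwa [neg_neg] at h

/-- The Cayley-Hamilton theorem. -/
lemma cube_eq {X : M3} (h : X.trace = 0) :
    X * X * X = ((1 / 2) * (X * X).trace) • X + X.det • (1 : M3) := by
  rw [Matrix.trace_fin_three] at h
  have h' : X 2 2 = -X 0 0 - X 1 1 := by linear_combination h
  ext i j
  fin_cases i <;> fin_cases j <;>
    simp [Matrix.mul_apply, Fin.sum_univ_three, Matrix.det_fin_three, Matrix.trace_fin_three, h'] <;>
    ring

lemma neg_one_card : (-1 : ℂ) ^ Fintype.card (Fin 3) = -1 := by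
  rw [Fintype.card_fin]; norm_num

lemma det_re {X : M3} (hX : star X = -X) : X.det.re = 0 := by
  have h1 : (star X).det = star X.det := Matrix.det_conjTranspose X
  rw [hX, Matrix.det_neg, neg_one_card] at h1
  have h2 := congrArg Complex.re h1
  simp at h2
  linarith

lemma mat_add (x y : Fin 8 → ℝ) : mat (x + y) = mat x + mat y := by
  ext i j
  apply Complex.ext <;> fin_cases i <;> fin_cases j <;> simp [mat] <;> ring

lemma mat_smul (c : ℝ) (x : Fin 8 → ℝ) : mat (c • x) = c • mat x := by
  ext i j
  apply Complex.ext <;> fin_cases i <;> fin_cases j <;> simp [mat] <;> ring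

lemma continuous_mat : Continuous mat := by
  let L : (Fin 8 → ℝ) →ₗ[ℝ] M3 := { toFun := mat, map_add' := mat_add, map_smul' := mat_smul }
  exact L.continuous_of_finiteDimensional

/-- Every 2-plane of `su(3)` contains a singular element. -/
lemma exists_singular (e f : Fin 8 → ℝ) :
    ∃ θ : ℝ, (mat (Real.cos θ • e + Real.sin θ • f)).det = 0 := by
  set h : ℝ → ℝ := fun θ => (mat (Real.cos θ • e + Real.sin θ • f)).det.im with hh
  have hc : Continuous h := by
    refine Complex.continuous_im.comp (Continuous.matrix_det (continuous_mat.comp ?_))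
    exact (Real.continuous_cos.smul continuous_const).add (Real.continuous_sin.smul continuous_const)
  have hπ : h π = -h 0 := by
    have e1 : Real.cos π • e + Real.sin π • f = (-1 : ℝ) • (Real.cos 0 • e + Real.sin 0 • f) := by
      simp
    simp only [hh]
    rw [e1, mat_smul, neg_one_smul, Matrix.det_neg, neg_one_card]
    simp
  obtain ⟨θ, -, hθ⟩ : ∃ θ ∈ uIcc 0 π, h θ = 0 := by
    have h1 := intermediate_value_uIcc (a := 0) (b := π) hc.continuousOn
    refine h1 ?_
    rw [hπ, mem_uIcc]
    rcases le_total (h 0) 0 with h2 | h2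
    · left; constructor <;> linarith
    · right; constructor <;> linarith
  refine ⟨θ, Complex.ext ?_ hθ⟩
  exact det_re (star_mat _)

lemma ex_singular {X : M3} (hX : star X = -X) (h0 : X.trace = 0) (hd : X.det = 0)
    (hn : ‖X‖ ^ 2 = 2) : ex ((2 * π) • X) = 1 := by
  refine ex_of_cube ?_
  rw [cube_eq h0, hd, zero_smul, add_zero]
  have h1 : (X * X).trace = -2 := by
    apply Complex.ext
    · rw [frob, hX] at hn
      simp at hn
      simp
      linarith
    · have h2 : star (X * X).trace = (X * X).trace := by
        rw [← Matrix.trace_conjTranspose]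
        have : (X * X)ᴴ = X * X := by
          have e : star (X * X) = X * X := by rw [star_mul, hX]; simp
          exact e
        rw [this]
      have h3 := congrArg Complex.im h2
      simp at h3
      simp
      linarith
  rw [h1]
  simp

end Pool.Agent.FC640.LU
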