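import Pool.Agent.FC640.LU.Sing

/-! # The maximal torus of an element of `su(3)` -/

set_option autoImplicit false
set_option maxHeartbeats 400000

open Real Set MeasureTheory Matrix
open scoped ContDiff Matrix.Norms.Frobenius

namespace Pool.Agent.FC640.LU

/-- The elements of a maximal torus. -/
noncomputable def tor (U : M3) (p q : ℝ) : M3 :=
  U * diagonal ![Complex.I * p, Complex.I * (q - p), -(Complex.I * q)] * star U

lemma star_tor (U : M3) (p q : ℝ) : star (tor U p q) = -tor U p q := by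
  have h : star (diagonal ![Complex.I * p, Complex.I * (q - p), -(Complex.I * q)])
      = -(diagonal ![Complex.I * (p : ℂ), Complex.I * (q - p), -(Complex.I * q)] : M3) := by
    ext i j
    fin_cases i <;> fin_cases j <;> simp [Matrix.star_apply]
  unfold tor
  rw [star_mul, star_mul, star_star, h, neg_mul, mul_neg, ← mul_assoc]

lemma trace_tor {U : M3} (hU : star U * U = 1) (p q : ℝ) : (tor U p q).trace = 0 := by
  unfold tor
  rw [Matrix.trace_mul_comm, ← mul_assoc, hU, one_mul, Matrix.trace_fin_three]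
  simp
  ring

lemma tor_eq (U : M3) (p q : ℝ) : tor U p q = p • tor U 1 0 + q • tor U 0 1 := by
  have h : (diagonal ![Complex.I * (p : ℂ), Complex.I * (q - p), -(Complex.I * q)] : M3)
      = p • diagonal ![Complex.I * ((1 : ℝ) : ℂ), Complex.I * (((0 : ℝ) : ℂ) - ((1 : ℝ) : ℂ)),
          -(Complex.I * ((0 : ℝ) : ℂ))]
        + q • diagonal ![Complex.I * ((0 : ℝ) : ℂ), Complex.I * (((1 : ℝ) : ℂ) - ((0 : ℝ) : ℂ)),
          -(Complex.I * ((1 : ℝ) : ℂ))] := by
    ext i j
    fin_cases i <;> fin_cases j <;> simp <;> ring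
  unfold tor
  rw [h]
  simp only [mul_add, add_mul, mul_smul_comm, smul_mul_assoc]

lemma norm_tor {U : M3} (hU : star U * U = 1) (p q : ℝ) :
    ‖tor U p q‖ ^ 2 = 2 * (p ^ 2 - p * q + q ^ 2) := by
  have hU' : U * star U = 1 := mul_eq_one_comm.1 hU
  have h1 := norm_conj (g := star U) (by rw [star_star]; exact hU')
    (diagonal ![Complex.I * (p : ℂ), Complex.I * (q - p), -(Complex.I * q)])
  rw [star_star] at h1
  unfold tor
  rw [h1, frob, Matrix.trace_fin_three]
  simp [Matrix.mul_apply, Fin.sum_univ_three, Matrix.star_apply]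
  ring

lemma ex_tor {U : M3} (hU : star U * U = 1) (m n : ℤ) :
    ex ((2 * π) • tor U m n) = 1 := by
  have hU' : U * star U = 1 := mul_eq_one_comm.1 hU
  have e1 : (2 * π) • tor U m n = star (star U) *
      diagonal ![(m : ℂ) * (2 * π * Complex.I), ((n - m : ℤ) : ℂ) * (2 * π * Complex.I),
        ((-n : ℤ) : ℂ) * (2 * π * Complex.I)] * star U := by
    unfold tor
    rw [star_star, ← smul_mul_assoc, ← mul_smul_comm]
    congr 2
    ext i j
    fin_cases i <;> fin_cases j <;> simp <;> ring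
  rw [e1, ex_conj (g := star U) (by rw [star_star]; exact hU')]
  have e2 : ex (diagonal ![(m : ℂ) * (2 * π * Complex.I), ((n - m : ℤ) : ℂ) * (2 * π * Complex.I),
        ((-n : ℤ) : ℂ) * (2 * π * Complex.I)]) = 1 := by
    unfold ex
    rw [Matrix.exp_diagonal, ← Matrix.diagonal_one]
    congr 1
    funext i
    rw [Pi.coe_exp, ← Complex.exp_eq_exp_ℂ]
    fin_cases i
    · exact Complex.exp_int_mul_two_pi_mul_I m
    · exact Complex.exp_int_mul_two_pi_mul_I (n - m)
    · exact Complex.exp_int_mul_two_pi_mul_I (-n)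
  rw [e2, mul_one, star_star, hU']

/-- Every element of `su(3)` lies in a maximal torus. -/
lemma exists_tor {E : M3} (hE : star E = -E) (h0 : E.trace = 0) :
    ∃ (U : M3) (a b : ℝ), star U * U = 1 ∧ E = tor U a b := by
  have hH : (Complex.I • E).IsHermitian := by
    have : (Complex.I • E)ᴴ = star Complex.I • star E := Matrix.conjTranspose_smul _ _
    rw [Matrix.IsHermitian, this, hE]
    simp
  obtain ⟨ev, U, hU1, hs⟩ : ∃ (ev : Fin 3 → ℝ) (U : M3), star U * U = 1 ∧
      Complex.I • E = U * diagonal (fun i => ((ev i : ℝ) : ℂ)) * star U := by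
    refine ⟨hH.eigenvalues, (hH.eigenvectorUnitary : M3),
      (Matrix.mem_unitaryGroup_iff').1 hH.eigenvectorUnitary.2, ?_⟩
    have h := hH.spectral_theorem
    rw [Unitary.conjStarAlgAut_apply] at h
    exact h
  have hU2 : U * star U = 1 := mul_eq_one_comm.1 hU1
  have hE2 : E = U * diagonal (fun i => -Complex.I * ((ev i : ℝ) : ℂ)) * star U := by
    have e : E = (-Complex.I) • (Complex.I • E) := by
      rw [smul_smul]; simp
    rw [e, hs, ← smul_mul_assoc, ← mul_smul_comm]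
    congr 2
    ext i j
    fin_cases i <;> fin_cases j <;> simp
  have hsum : ev 0 + ev 1 + ev 2 = 0 := by
    rw [hE2, Matrix.trace_mul_comm, ← mul_assoc, hU1, one_mul, Matrix.trace_fin_three] at h0
    have h1 := congrArg Complex.im h0
    simp at h1
    linarith
  refine ⟨U, -ev 0, ev 2, hU1, ?_⟩
  conv_lhs => rw [hE2]
  unfold tor
  congr 2
  have h1 : ev 1 = -ev 0 - ev 2 := by linarith
  ext i j
  fin_cases i <;> fin_cases j <;> simp [h1]
  ring

/-- A short integral element in the torus of a short element. -/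
lemma torus_bound {B : Matrix (Fin 8) (Fin 8) ℝ} (hB : B.PosDef) {E : M3} (hE : star E = -E)
    (h0 : E.trace = 0) (hn : ‖E‖ ^ 2 = 2) {l L : ℝ} (hl : form B E E ≤ l)
    (hL : ∀ Y : M3, star Y = -Y → Y.trace = 0 → ‖Y‖ ^ 2 = 2 → form B Y Y ≤ L) :
    ∃ X₀ : M3, star X₀ = -X₀ ∧ X₀.trace = 0 ∧ ex ((2 * π) • X₀) = 1 ∧ X₀ ≠ 0 ∧
      form B X₀ X₀ ≤ √3 * √(l * L) := by
  obtain ⟨U, a, b, hU, hEt⟩ := exists_tor hE h0
  have hH := hB.isHermitian
  set α := form B (tor U 1 0) (tor U 1 0) with hα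
  set β := form B (tor U 1 0) (tor U 0 1) with hβ
  set γ := form B (tor U 0 1) (tor U 0 1) with hγ
  have hq : ∀ p q : ℝ, form B (tor U p q) (tor U p q) = α * p ^ 2 + 2 * β * p * q + γ * q ^ 2 := by
    intro p q
    have hadd : ∀ u v w : M3, form B (u + v) w = form B u w + form B v w := by
      intro u v w
      rw [form_comm hH (u + v) w, form_add_right, form_comm hH w u, form_comm hH w v]
    rw [tor_eq U p q]
    simp only [form_add_right, hadd, form_smul_left, form_smul_right]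
    rw [form_comm hH (tor U 0 1) (tor U 1 0), ← hα, ← hβ, ← hγ]
    ring
  have hne : ∀ p q : ℝ, (p ≠ 0 ∨ q ≠ 0) → tor U p q ≠ 0 := by
    intro p q hpq h
    have h1 := norm_tor hU p q
    rw [h] at h1
    simp at h1
    rcases hpq with h2 | h2
    · have := sq_pos_of_ne_zero h2
      nlinarith [sq_nonneg (p - 2 * q)]
    · have := sq_pos_of_ne_zero h2
      nlinarith [sq_nonneg (q - 2 * p)]
  have hpos : ∀ p q : ℝ, (p ≠ 0 ∨ q ≠ 0) → 0 < α * p ^ 2 + 2 * β * p * q + γ * q ^ 2 := by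
    intro p q hpq
    rw [← hq]
    exact form_pos hB (star_tor U p q) (trace_tor hU p q) (hne p q hpq)
  have hα0 : 0 < α := by
    have := hpos 1 0 (Or.inl one_ne_zero)
    simpa using this
  have hD0 : 0 < α * γ - β ^ 2 := by
    have h := hpos (-β) α (Or.inr hα0.ne')
    have e : α * (-β) ^ 2 + 2 * β * (-β) * α + γ * α ^ 2 = α * (α * γ - β ^ 2) := by ring
    rw [e] at h
    exact (mul_pos_iff_of_pos_left hα0).1 h
  -- the area
  have hG : a ^ 2 - a * b + b ^ 2 = 1 := by
    have h1 := norm_tor hU a b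
    rw [← hEt, hn] at h1
    linarith
  have h3 : (√3 : ℝ) ^ 2 = 3 := Real.sq_sqrt (by norm_num)
  have h3' : (√3 : ℝ) ≠ 0 := by positivity
  set p := (a - 2 * b) / √3 with hp
  set q := (2 * a - b) / √3 with hqd
  have hp2 : p ^ 2 = (a - 2 * b) ^ 2 / 3 := by rw [hp, div_pow, h3]
  have hq2 : q ^ 2 = (2 * a - b) ^ 2 / 3 := by rw [hqd, div_pow, h3]
  have hpq : p * q = (a - 2 * b) * (2 * a - b) / 3 := by
    rw [hp, hqd, div_mul_div_comm, ← pow_two, h3]
  have hGp : p ^ 2 - p * q + q ^ 2 = 1 := by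
    rw [hp2, hq2, hpq]
    linear_combination hG
  have h1 : α * a ^ 2 + 2 * β * a * b + γ * b ^ 2 ≤ l := by rw [← hq, ← hEt]; exact hl
  have h2 : α * p ^ 2 + 2 * β * p * q + γ * q ^ 2 ≤ L := by
    rw [← hq]
    refine hL _ (star_tor U p q) (trace_tor hU p q) ?_
    rw [norm_tor hU, hGp]; norm_num
  have hab : a ≠ 0 ∨ b ≠ 0 := by
    by_contra h
    push Not at h
    rw [h.1, h.2] at hG
    norm_num at hG
  have hpq0 : p ≠ 0 ∨ q ≠ 0 := by
    by_contra h
    push Not at h
    rw [h.1, h.2] at hGp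
    norm_num at hGp
  have h5 := hpos a b hab
  have h6 := hpos p q hpq0
  have h7 : (4 / 3) * (α * γ - β ^ 2) ≤ l * L := by
    have hdet : (a * q - b * p) ^ 2 = 4 / 3 := by
      have e : (a * q - b * p) ^ 2 = a ^ 2 * q ^ 2 - 2 * a * b * (p * q) + b ^ 2 * p ^ 2 := by ring
      rw [e, hp2, hq2, hpq]
      have e2 : a ^ 2 * ((2 * a - b) ^ 2 / 3) - 2 * a * b * ((a - 2 * b) * (2 * a - b) / 3)
          + b ^ 2 * ((a - 2 * b) ^ 2 / 3) = 4 / 3 * (a ^ 2 - a * b + b ^ 2) ^ 2 := by ring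
      rw [e2, hG]; norm_num
    have h8 : (α * a ^ 2 + 2 * β * a * b + γ * b ^ 2) * (α * p ^ 2 + 2 * β * p * q + γ * q ^ 2)
        = (a * q - b * p) ^ 2 * (α * γ - β ^ 2)
          + (α * a * p + β * (a * q + b * p) + γ * b * q) ^ 2 := by ring
    rw [hdet] at h8
    have h9 := mul_le_mul h1 h2 h6.le (h5.le.trans h1)
    nlinarith [sq_nonneg (α * a * p + β * (a * q + b * p) + γ * b * q)]
  obtain ⟨m, n, hmn, hle⟩ := LS.exists_int_le hα0 hD0
  have hmn' : ((m : ℝ) ≠ 0 ∨ (n : ℝ) ≠ 0) := by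
    rcases hmn with h | h
    · left; exact_mod_cast h
    · right; exact_mod_cast h
  refine ⟨tor U m n, star_tor _ _ _, trace_tor hU _ _, ex_tor hU m n, hne _ _ hmn', ?_⟩
  rw [hq]
  refine hle.trans ?_
  rw [← Real.sqrt_mul (by norm_num : (0 : ℝ) ≤ 3)]
  have h10 : 2 * √(α * γ - β ^ 2) = √(4 * (α * γ - β ^ 2)) := by
    rw [Real.sqrt_mul (by norm_num : (0 : ℝ) ≤ 4)]
    congr 1
    rw [show (4 : ℝ) = 2 ^ 2 by norm_num, Real.sqrt_sq (by norm_num)]
  rw [h10]
  apply Real.sqrt_le_sqrt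
  linarith

end Pool.Agent.FC640.LU
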